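import Pool.Agent.H420.CoreNuc

/-!
# Deciding whether the core of a graph equals its nucleus is NP-hard and coNP-hard

The graph `G` is the join of two graphs `A` and `B`.  The graph `A` consists of one triangle for
each of the `m` clauses of a 3-CNF formula (with an edge between any two contradictory literal
occurrences) and of one further vertex `x`; so `A` has an independent set of size `m + 1`, which
then contains `x`, if and only if the formula is satisfiable.  The graph `B` consists of `m`
triangles and, for the first reduction, of one further vertex `y`.  Every nonempty independent set
of `G` has more neighbours than elements, so the nucleus is empty.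
-/

namespace Pool.Agent.Results.MP_54ee58_lc.CoreNucleusHard

open Pool.Agent.NPC Pool.Agent.H420.CoreNuc

/-- **Deciding whether `core(G) = nucleus(G)` is NP-hard and coNP-hard** under polynomial-time
many-one reductions. -/
theorem result : NPHardP CoreEqNucleus ∧ CoNPHardP CoreEqNucleus := ⟨npHard, coNPHard⟩

end Pool.Agent.Results.MP_54ee58_lc.CoreNucleusHard
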